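import Pool.Agent.Helper38.XF.Spec2

/-!
Swarm XG (MP_db9079_lc), part GEN: the subfield generated by a set which contains the
`p`-components of its elements.
-/

set_option autoImplicit false

namespace Pool.Agent.Helper67.XG.GEN

open Polynomial Pool.Agent.Helper38.XF

section

variable {p : ℕ} [Fact p.Prime] {L : Type} [Field L] [CharP L p] (t : L) (k : Subfield L)

/-- `x` has components in `k`. -/
def PP (p : ℕ) {L : Type} [Field L] (t : L) (k : Subfield L) (x : L) : Prop :=
  ∃ c : Fin p → L, (∀ i, c i ∈ k) ∧ x = ∑ i, c i ^ p * t ^ (i : ℕ)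

include p in
theorem PP_zero : PP p t k 0 :=
  ⟨fun _ => 0, fun _ => k.zero_mem, by
    rw [Finset.sum_eq_zero]
    intro i _
    rw [zero_pow (Fact.out : p.Prime).ne_zero, zero_mul]⟩

theorem PP_add {x y : L} (hx : PP p t k x) (hy : PP p t k y) : PP p t k (x + y) := by
  obtain ⟨c, hc, rfl⟩ := hx
  obtain ⟨d, hd, rfl⟩ := hy
  refine ⟨fun i => c i + d i, fun i => k.add_mem (hc i) (hd i), ?_⟩
  rw [← Finset.sum_add_distrib]
  refine Finset.sum_congr rfl fun i _ => ?_
  rw [add_pow_char, add_mul]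

theorem PP_neg {x : L} (hx : PP p t k x) : PP p t k (-x) := by
  obtain ⟨c, hc, rfl⟩ := hx
  refine ⟨fun i => - c i, fun i => k.neg_mem (hc i), ?_⟩
  rw [← Finset.sum_neg_distrib]
  refine Finset.sum_congr rfl fun i _ => ?_
  have h : (- c i) ^ p = - (c i ^ p) := map_neg (frobenius L p) (c i)
  rw [h, neg_mul]

theorem PP_sum {ι : Type} (s : Finset ι) (f : ι → L) (h : ∀ i ∈ s, PP p t k (f i)) :
    PP p t k (∑ i ∈ s, f i) := by
  classical
  induction s using Finset.induction_on with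
  | empty => rw [Finset.sum_empty]; exact PP_zero t k
  | insert a s ha ih =>
    rw [Finset.sum_insert ha]
    exact PP_add t k (h a (Finset.mem_insert_self _ _))
      (ih fun i hi => h i (Finset.mem_insert_of_mem hi))

theorem PP_mono (ht : t ∈ k) {u : L} (hu : u ∈ k) (m : ℕ) : PP p t k (u ^ p * t ^ m) := by
  classical
  have hp := (Fact.out : p.Prime).pos
  refine ⟨Pi.single ⟨m % p, Nat.mod_lt _ hp⟩ (u * t ^ (m / p)), ?_, ?_⟩
  · intro i
    by_cases hi : i = ⟨m % p, Nat.mod_lt _ hp⟩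
    · subst hi
      rw [Pi.single_eq_same]
      exact k.mul_mem hu (k.pow_mem ht _)
    · rw [Pi.single_eq_of_ne hi]
      exact k.zero_mem
  · rw [Finset.sum_eq_single ⟨m % p, Nat.mod_lt _ hp⟩]
    · rw [Pi.single_eq_same, mul_pow, ← pow_mul, mul_assoc, ← pow_add]
      congr 2
      rw [mul_comm (m / p) p]
      exact (Nat.div_add_mod m p).symm
    · intro i _ hi
      rw [Pi.single_eq_of_ne hi, zero_pow (Fact.out : p.Prime).ne_zero, zero_mul]
    · intro h
      exact absurd (Finset.mem_univ _) h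

theorem PP_mul (ht : t ∈ k) {x y : L} (hx : PP p t k x) (hy : PP p t k y) :
    PP p t k (x * y) := by
  obtain ⟨c, hc, rfl⟩ := hx
  obtain ⟨d, hd, rfl⟩ := hy
  rw [Finset.sum_mul_sum]
  refine PP_sum t k _ _ fun i _ => PP_sum t k _ _ fun j _ => ?_
  have h : c i ^ p * t ^ (i : ℕ) * (d j ^ p * t ^ (j : ℕ)) =
      (c i * d j) ^ p * t ^ ((i : ℕ) + (j : ℕ)) := by
    rw [mul_pow, pow_add]
    ring
  rw [h]
  exact PP_mono t k ht (k.mul_mem (hc i) (hd j)) _

theorem PP_one (ht : t ∈ k) : PP p t k 1 := by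
  have h := PP_mono (p := p) t k ht k.one_mem 0
  rwa [one_pow, pow_zero, one_mul] at h

theorem PP_pow (ht : t ∈ k) {x : L} (hx : PP p t k x) (n : ℕ) : PP p t k (x ^ n) := by
  induction n with
  | zero => rw [pow_zero]; exact PP_one t k ht
  | succ n ih => rw [pow_succ]; exact PP_mul t k ht ih hx

theorem PP_smul {x u : L} (hu : u ∈ k) (hx : PP p t k x) : PP p t k (u ^ p * x) := by
  obtain ⟨c, hc, rfl⟩ := hx
  refine ⟨fun i => u * c i, fun i => k.mul_mem hu (hc i), ?_⟩
  rw [Finset.mul_sum]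
  refine Finset.sum_congr rfl fun i _ => ?_
  rw [mul_pow, mul_assoc]

theorem PP_inv (ht : t ∈ k) {x : L} (hxk : x ∈ k) (hx : PP p t k x) : PP p t k x⁻¹ := by
  by_cases h0 : x = 0
  · rw [h0, inv_zero]
    exact PP_zero t k
  have hp := (Fact.out : p.Prime).pos
  have h : x⁻¹ = (x⁻¹) ^ p * x ^ (p - 1) := by
    obtain ⟨q, rfl⟩ : ∃ q, p = q + 1 := ⟨p - 1, by omega⟩
    rw [Nat.add_sub_cancel, pow_succ, mul_right_comm, ← mul_pow, inv_mul_cancel₀ h0, one_pow,
      one_mul]
  rw [h]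
  exact PP_smul t k (k.inv_mem hxk) (PP_pow t k ht hx _)

end

theorem main : St_GEN := by
  intro p _ L _ _ t hB S htS hS
  have ht : t ∈ Subfield.closure S := Subfield.subset_closure htS
  have key : ∀ x ∈ Subfield.closure S, PP p t (Subfield.closure S) x := by
    intro x hx
    induction hx using Subfield.closure_induction with
    | mem x hx =>
      obtain ⟨c, hc, h⟩ := hS x hx
      exact ⟨c, fun i => Subfield.subset_closure (hc i), h⟩
    | one => exact PP_one t _ ht
    | add x y _ _ hx hy => exact PP_add t _ hx hy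
    | neg x _ hx => exact PP_neg t _ hx
    | inv x hxk hx => exact PP_inv t _ ht hxk hx
    | mul x y _ _ hx hy => exact PP_mul t _ ht hx hy
  refine ⟨ht, fun c hc i => ?_⟩
  obtain ⟨d, hd, h⟩ := key _ hc
  have h1 : ∑ i, (c i - d i) ^ p * t ^ (i : ℕ) = 0 := by
    have h2 : ∀ i ∈ (Finset.univ : Finset (Fin p)), (c i - d i) ^ p * t ^ (i : ℕ) =
        c i ^ p * t ^ (i : ℕ) - d i ^ p * t ^ (i : ℕ) := by
      intro i _
      have h3 : (c i - d i) ^ p = c i ^ p - d i ^ p := map_sub (frobenius L p) (c i) (d i)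
      rw [h3, sub_mul]
    rw [Finset.sum_congr rfl h2, Finset.sum_sub_distrib, h, sub_self]
  have h4 := hB.2 (fun i => c i - d i) h1 i
  rw [sub_eq_zero.1 h4]
  exact hd i

end Pool.Agent.Helper67.XG.GEN
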